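import Pool.Agent.Helper68.QS.St2

/-!
# Project QD: straightening and transfer, module FUF (two notions of Fuchsian groups)
-/

set_option autoImplicit false

open MeasureTheory Set Filter Topology Complex
open scoped ContDiff ComplexConjugate ENNReal

namespace Pool.Agent.Helper94.QS

open Pool.Agent.Helper68.QS Pool.Agent.Helper68.QC
open Pool.Agent.Helper61.QE (D Dx rf SU Fu FD Ab sy nuT muT syX syY Kap En Et)

/-- The Hilbert-Schmidt norm of an element of `SU(1,1)` in terms of the image of `0`. -/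
private lemma hs_le (A : SL) (hA : SU A) (r : ℝ) (h0 : 0 ≤ r) (h1 : r < 1)
    (h : ‖mob A 0‖ ≤ r) : Pool.Agent.Helper35.PM.hs (A : Matrix (Fin 2) (Fin 2) ℂ) ≤
      4 / (1 - r ^ 2) := by
  obtain ⟨h11, h10⟩ := hA
  have hdet : A 0 0 * A 1 1 - A 0 1 * A 1 0 = 1 := by
    have := A.det_coe
    rw [Matrix.det_fin_two] at this
    exact this
  have n11 : ‖A 1 1‖ = ‖A 0 0‖ := by rw [h11, Complex.norm_conj]
  have n10 : ‖A 1 0‖ = ‖A 0 1‖ := by rw [h10, Complex.norm_conj]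
  have hab : ‖A 0 0‖ ^ 2 - ‖A 0 1‖ ^ 2 = 1 := by
    rw [h11, h10, Complex.mul_conj, Complex.mul_conj, Complex.normSq_eq_norm_sq,
      Complex.normSq_eq_norm_sq] at hdet
    exact_mod_cast hdet
  have hm : mob A 0 = A 0 1 / A 1 1 := by simp [mob, den]
  have ha0 : 0 < ‖A 0 0‖ := by
    rcases (norm_nonneg (A 0 0)).eq_or_lt with h | h
    · exfalso
      rw [← h] at hab
      nlinarith [sq_nonneg ‖A 0 1‖]
    · exact h
  have hb : ‖A 0 1‖ ≤ r * ‖A 0 0‖ := by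
    rw [hm, norm_div, n11, div_le_iff₀ ha0] at h
    exact h
  have hb2 : ‖A 0 1‖ ^ 2 ≤ r ^ 2 * ‖A 0 0‖ ^ 2 := by
    rw [← mul_pow]
    exact pow_le_pow_left₀ (norm_nonneg _) hb 2
  have hs : Pool.Agent.Helper35.PM.hs (A : Matrix (Fin 2) (Fin 2) ℂ) =
      2 * (‖A 0 0‖ ^ 2 + ‖A 0 1‖ ^ 2) := by
    have : Pool.Agent.Helper35.PM.hs (A : Matrix (Fin 2) (Fin 2) ℂ) =
        ‖A 0 0‖ ^ 2 + ‖A 0 1‖ ^ 2 + (‖A 1 0‖ ^ 2 + ‖A 1 1‖ ^ 2) := by
      simp only [Pool.Agent.Helper35.PM.hs, Fin.sum_univ_two]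
    rw [this, n11, n10]
    ring
  have h1r : 0 < 1 - r ^ 2 := by nlinarith
  rw [hs, le_div_iff₀ h1r]
  nlinarith [sq_nonneg ‖A 0 1‖, sq_nonneg ‖A 0 0‖]

theorem pFUF : Pool.Agent.Helper68.QS.StFUF := by
  intro Γ _ s hF hfree
  refine ⟨fun γ => hF.su γ, fun r hr => ?_, hfree, ?_⟩
  · refine (hF.discrete (4 / (1 - (max r 0) ^ 2))).subset fun γ hγ => ?_
    exact hs_le (s γ) (hF.su γ) (max r 0) (le_max_right _ _) (max_lt hr zero_lt_one)
      (le_trans hγ (le_max_left _ _))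
  · obtain ⟨r, hr, h⟩ := hF.cocompact
    exact ⟨r, hr, fun z hz => h z hz⟩

end Pool.Agent.Helper94.QS
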